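import Pool.Agent.Helper15.EP.St

set_option autoImplicit false

/-!
Project EP (MP_16cbc0_nt), module VUB.
-/

open Polynomial Pool.Agent.Helper15.FC Pool.Agent.Helper15.EP

namespace Pool.Agent.Helper81.EP

theorem vub_mob {F : Type} [Field F] (f : F[X]) : |(mob f : ℝ)| ≤ 1 := by
  classical
  unfold mob
  split_ifs
  · push_cast
    rw [abs_pow, abs_neg, abs_one, one_pow]
  · simp

open scoped Classical in
theorem vub_cram {F : Type} [Field F] [Fintype F] (e f : F[X]) :
    |(cram e f : ℝ)| ≤ ∑ d ∈ Dv e, (if d ∣ f then qr F ^ d.natDegree else 0) := by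
  have hq : (0 : ℝ) ≤ qr F := by
    unfold qr
    positivity
  unfold cram
  rw [← Finset.sum_filter]
  push_cast
  refine (Finset.abs_sum_le_sum_abs _ _).trans (Finset.sum_le_sum fun d _ => ?_)
  rw [abs_mul, abs_pow]
  have h2 : |(Fintype.card F : ℝ)| = qr F := by
    unfold qr
    exact abs_of_nonneg (by positivity)
  rw [h2]
  calc |(mob (e / d) : ℝ)| * qr F ^ d.natDegree ≤ 1 * qr F ^ d.natDegree :=
        mul_le_mul_of_nonneg_right (vub_mob _) (pow_nonneg hq _)
    _ = qr F ^ d.natDegree := one_mul _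

open scoped Classical in
theorem vub_sum (hDUB : StDUB) {F : Type} [Field F] [Fintype F] (l : ℕ) (y : Fin l → ℕ)
    (e : F[X]) (he : e.Monic) :
    ∑ b ∈ Tup F y, |(cram e (∏ j, b j) : ℝ)| ≤ qr F ^ (∑ j, y j) * tau e ^ (l + 1) := by
  have hq : (0 : ℝ) ≤ qr F := by
    unfold qr
    positivity
  calc ∑ b ∈ Tup F y, |(cram e (∏ j, b j) : ℝ)|
      ≤ ∑ b ∈ Tup F y, ∑ d ∈ Dv e, (if d ∣ ∏ j, b j then qr F ^ d.natDegree else 0) :=
        Finset.sum_le_sum fun b _ => vub_cram e _
    _ = ∑ d ∈ Dv e, ∑ b ∈ Tup F y, (if d ∣ ∏ j, b j then qr F ^ d.natDegree else 0) :=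
        Finset.sum_comm
    _ = ∑ d ∈ Dv e, (Dc d y : ℝ) * qr F ^ d.natDegree := by
        refine Finset.sum_congr rfl fun d _ => ?_
        rw [← Finset.sum_filter, Finset.sum_const, nsmul_eq_mul]
        unfold Dc
        congr 2
    _ ≤ ∑ d ∈ Dv e, qr F ^ (∑ j, y j) * tau e ^ l := by
        refine Finset.sum_le_sum fun d hd => ?_
        have hd' := (mem_Dv he.ne_zero).1 hd
        refine (hDUB F l y d hd'.1).trans ?_
        refine mul_le_mul_of_nonneg_left ?_ (pow_nonneg hq _)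
        have h1 : Dv d ⊆ Dv e := by
          intro c hc
          have hc' := (mem_Dv hd'.1.ne_zero).1 hc
          exact (mem_Dv he.ne_zero).2 ⟨hc'.1, hc'.2.trans hd'.2⟩
        have h2 : tau d ≤ tau e := by
          unfold tau
          exact_mod_cast Finset.card_le_card h1
        exact pow_le_pow_left₀ (by unfold tau; positivity) h2 l
    _ = qr F ^ (∑ j, y j) * tau e ^ (l + 1) := by
        rw [Finset.sum_const, nsmul_eq_mul, pow_succ]
        change tau e * _ = _
        ring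

theorem hVUB (hDUB : StDUB) (hPHI : StPHI) : StVUB := by
  intro F _ _ l y e he
  have hq : (0 : ℝ) ≤ qr F := by
    unfold qr
    positivity
  obtain ⟨p1, -, p3⟩ := hPHI F e he
  have hp : (0 : ℝ) < (phi e : ℝ) := by exact_mod_cast p1
  have ht : (0 : ℝ) ≤ tau e := by
    unfold tau
    positivity
  have h1 : |Vl e y| ≤ (1 / (phi e : ℝ)) * (qr F ^ (∑ j, y j) * tau e ^ (l + 1)) := by
    unfold Vl
    rw [abs_mul, abs_of_nonneg (by positivity : (0 : ℝ) ≤ 1 / (phi e : ℝ))]
    refine mul_le_mul_of_nonneg_left ?_ (by positivity)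
    exact (Finset.abs_sum_le_sum_abs _ _).trans (vub_sum hDUB l y e he)
  calc |Vl e y| * qr F ^ e.natDegree
      ≤ ((1 / (phi e : ℝ)) * (qr F ^ (∑ j, y j) * tau e ^ (l + 1))) * ((phi e : ℝ) * tau e) :=
        mul_le_mul h1 p3 (pow_nonneg hq _) (by positivity)
    _ = qr F ^ (∑ j, y j) * tau e ^ (l + 2) := by
        field_simp
        ring

end Pool.Agent.Helper81.EP
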