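import Pool.Agent.Helper61.EP.StL

/-!
# Project EP (MP_cb927e_an), module LXC: the exceptional sets of part C
-/

set_option autoImplicit false

open MeasureTheory Set Filter Topology
open scoped ENNReal RealInnerProductSpace

namespace Pool.Agent.Helper81.EPL

open Pool.Agent.Helper68.LM (Pl BB Bd Av HL ft fm DQ)
open Pool.Agent.Helper61.EPL
open Pool.Agent.Helper20.RG
open Pool.Agent.Helper20.RL (RQ Rich BM Fml Hit)
open Pool.Agent.Helper68.EP
open Pool.Agent.Helper61.EP (trS Ex2 Yc Zc Ec am cutf)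

theorem lxc_BM {f : Pl → ℝ} (hf : BB f) (m : ℤ) : BM (Gf f m) := by
  obtain ⟨hm, K, hK, hs⟩ := hf
  refine ⟨?_, ?_⟩
  · have h1 : MeasurableSet {x | (2 : ℝ) ^ m ≤ f x} := measurableSet_le measurable_const hm
    have h2 : MeasurableSet {x | f x < (2 : ℝ) ^ (m + 1)} := measurableSet_lt hm measurable_const
    exact h1.inter h2
  · refine (Metric.isBounded_closedBall (x := (0 : Pl)) (r := K)).subset ?_
    intro x hx
    rw [mem_closedBall_zero_iff]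
    by_contra h
    have h0 := hs x (not_le.mp h)
    have h1 := hx.1
    rw [h0] at h1
    have h2 : (0 : ℝ) < (2 : ℝ) ^ m := by positivity
    linarith

theorem lxc_KA {A p : ℝ} (hA : 0 < A) (hp : 1 ≤ p) (u : ℕ) :
    (KA A p u : ℝ) ≤ (3 + A ^ p) * (2 : ℝ) ^ (p * u) := by
  unfold KA
  push_cast
  have h0 : 0 ≤ (A * (2 : ℝ) ^ u) ^ p := by positivity
  have h1 : (⌈(A * (2 : ℝ) ^ u) ^ p⌉₊ : ℝ) < (A * (2 : ℝ) ^ u) ^ p + 1 := Nat.ceil_lt_add_one h0
  have h2 : (A * (2 : ℝ) ^ u) ^ p = A ^ p * (2 : ℝ) ^ (p * u) := by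
    rw [Real.mul_rpow hA.le (by positivity)]
    congr 1
    rw [← Real.rpow_natCast, ← Real.rpow_mul (by norm_num)]
    ring_nf
  have h3 : (u : ℝ) + 1 ≤ (2 : ℝ) ^ u := by exact_mod_cast Nat.lt_two_pow_self
  have h4 : (2 : ℝ) ^ u ≤ (2 : ℝ) ^ (p * u) := by
    rw [← Real.rpow_natCast]
    apply Real.rpow_le_rpow_of_exponent_le (by norm_num)
    nlinarith [(Nat.cast_nonneg u : (0 : ℝ) ≤ u)]
  have h5 : (1 : ℝ) ≤ (2 : ℝ) ^ u := one_le_pow₀ (by norm_num)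
  nlinarith

theorem lxc_Loc {Cf Λ Λ' : ℝ} {g : Pl → ℝ} {x : Pl} (h : Loc Cf Λ g x) (hΛ : Λ ≤ Λ') :
    Loc Cf Λ' g x := by
  intro k
  refine (h k).trans (ENNReal.ofReal_le_ofReal ?_)
  exact mul_le_mul_of_nonneg_right hΛ (by positivity)

theorem lxc_pow {a b : ℝ} (h : a ≤ b) (u : ℕ) : (2 : ℝ) ^ (-(b * u)) ≤ (2 : ℝ) ^ (-(a * u)) := by
  apply Real.rpow_le_rpow_of_exponent_le (by norm_num)
  have := mul_le_mul_of_nonneg_right h (Nat.cast_nonneg u : (0 : ℝ) ≤ u)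
  linarith

theorem lxc_pow2 {a b p : ℝ} (h : a ≤ b) (u : ℕ) :
    (2 : ℝ) ^ ((p - b) * u) ≤ (2 : ℝ) ^ ((p - a) * u) := by
  apply Real.rpow_le_rpow_of_exponent_le (by norm_num)
  exact mul_le_mul_of_nonneg_right (by linarith) (Nat.cast_nonneg u : (0 : ℝ) ≤ u)

theorem hLXC (hMM : Pool.Agent.Helper20.RG.StMM) (hSYS : Pool.Agent.Helper20.RG.StSYS)
    (hCON : Pool.Agent.Helper61.EP.StCON) (hCYO : Pool.Agent.Helper61.EP.StCYO)
    (hLSQ : Pool.Agent.Helper61.EPL.StLSQ) : Pool.Agent.Helper61.EPL.StLXC := by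
  intro φ τ A₁ γ c P hG hgap hA hEx
  have hs1 : 1 < P.s := P.hs
  have hsp : P.s < P.p := P.hsp
  have hp2 : P.p < 2 := P.hp
  have hp1 : 1 < P.p := hs1.trans hsp
  have hp0 : 0 < P.p := by linarith
  have hg0 : 0 < P.g / 8 := by unfold Par.g; linarith
  have hεp : P.ε < P.p := by have := P.hεs; have := P.hε; linarith
  set Cf₀ : ℝ := ‖c‖ + |φ 0| + 3 + A₁ ^ P.p with hCf
  have hApos : 0 < A₁ ^ P.p := Real.rpow_pos_of_pos hA _
  have hCf1 : 1 ≤ Cf₀ := by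
    have h1 := norm_nonneg c
    have h2 := abs_nonneg (φ 0)
    linarith
  obtain ⟨uc, ec, Cc, e'c, hec, hCc, he'c, HC⟩ := hCON A₁ P.p P.s γ Cf₀ (P.g / 8) hA.le hEx hCf1 hg0
  obtain ⟨uy, ey, Cy, e'y, hey, hCy, he'y, HY⟩ := hCYO A₁ P.p P.s γ Cf₀ P.ε hA.le hEx hCf1 P.hε hεp
  obtain ⟨C₀, hC₀, HL4⟩ := hLSQ P.p hp1 hp2
  set e' : ℝ := min e'c e'y with he'
  have he'0 : 0 < e' := lt_min he'c he'y
  set C' : ℝ := Cc + Cy with hC'
  have hC'0 : 0 < C' := by positivity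
  refine ⟨max (max uc uy) 1, min ec ey, Cf₀ + 10, max 1 (C' * (1 / (1 - (2 : ℝ) ^ (-e')))),
    lt_min hec hey, by linarith, le_max_left _ _, ?_⟩
  intro f hf hf0
  have key : ∀ (l : ℤ) (u : ℕ), max (max uc uy) 1 ≤ u →
      volume {x | Loc (Cf₀ + 10) ((2 : ℝ) ^ (-(P.s * u)) / 4) ((Gf f (l + (u : ℤ))).indicator 1) x ∧
        ∃ k : ℤ, ((2 : ℝ) ^ (-(min ec ey * u)) ≤ trS (2 ^ u) ((2 : ℝ) ^ (-(P.g / 8 * u)))
            (fun j => Yc c φ τ u k ((Gf f (l + (u : ℤ))).indicator 1) x j) ∨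
          (2 : ℝ) ^ (-(min ec ey * u)) ≤ ∑ j ∈ Finset.range (2 ^ u), Yc c φ τ u k
            ((Gf f (l + (u : ℤ)) \ Fo P u k (q0 P u) (Gf f (l + (u : ℤ)))).indicator 1) x j)} ≤
      ENNReal.ofReal C' * (ENNReal.ofReal ((2 : ℝ) ^ ((P.p - e') * u)) *
        volume (Gf f (l + (u : ℤ)))) := by
    intro l u hu
    have huc : uc ≤ u := (le_max_left _ _).trans ((le_max_left _ _).trans hu)
    have huy : uy ≤ u := (le_max_right _ _).trans ((le_max_left _ _).trans hu)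
    have hu1 : 1 ≤ u := (le_max_right _ _).trans hu
    set E : Set Pl := Gf f (l + (u : ℤ)) with hE
    have hBM : BM E := lxc_BM hf _
    have hSy := (hSYS φ τ A₁ P.p c hG hgap hA hp0 u hu1).1
    have hSlo : Slo u A₁ P.p (fun j => τ (tm u j)) := ⟨hSy.slope, hSy.sep⟩
    have hcen : ∀ j < 2 ^ u, ‖ce c φ u j‖ ≤ Cf₀ := fun j hj => (hSy.cen j hj).trans (by linarith)
    have hmm := fun j (hj : j < 2 ^ u) => hMM φ τ A₁ P.p hG hgap hA hp0 u j hu1 hj
    have hK : (KA A₁ P.p u : ℝ) ≤ Cf₀ * (2 : ℝ) ^ (P.p * u) := by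
      refine (lxc_KA hA hp1.le u).trans ?_
      apply mul_le_mul_of_nonneg_right _ (by positivity)
      have h1 := norm_nonneg c
      have h2 := abs_nonneg (φ 0)
      linarith
    have H1 := HC u (KA A₁ P.p u) (fun j => τ (tm u j)) (ce c φ u) (mm τ u) E huc hSlo
      (fun j hj => ⟨hcen j hj, (hmm j hj).2.2.2.2.1, (hmm j hj).2.2.2.2.2.1⟩) hK hBM
    have hq : ((q0 P u : ℕ) : ℝ) ≤ (P.p - P.ε) * u := by
      unfold q0
      apply Nat.floor_le
      have : 0 ≤ P.p - P.ε := by linarith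
      positivity
    have H2 := HY u (q0 P u) (fun j => τ (tm u j)) (ce c φ u) (mm τ u) E huy hSlo
      (fun j hj => ⟨hcen j hj, (hmm j hj).2.2.2.2.1⟩) hq hBM
    refine (measure_mono (t := {x | Loc (Cf₀ + 10) ((2 : ℝ) ^ (-(P.s * u))) (E.indicator 1) x ∧
      ∃ k : ℤ, (2 : ℝ) ^ (-(ec * u)) ≤ trS (2 ^ u) ((2 : ℝ) ^ (-(P.g / 8 * u))) (fun j =>
          Y (τ (tm u j)) (ce c φ u j) (mm τ u j) (1 / (2 : ℝ) ^ u) k (E.indicator 1) x)} ∪
      {x | Loc (Cf₀ + 10) ((2 : ℝ) ^ (-(P.s * u)) / 4) (E.indicator 1) x ∧ ∃ k : ℤ,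
        (2 : ℝ) ^ (-(ey * u)) ≤ ∑ j ∈ Finset.range (2 ^ u), Y (τ (tm u j)) (ce c φ u j) (mm τ u j)
          (1 / (2 : ℝ) ^ u) k
          ((E \ Fb E ((2 : ℝ) ^ (-(P.s * u))) (k - 2 ^ q0 P u)).indicator 1) x}) ?_).trans ?_
    · rintro x ⟨hx, k, hk | hk⟩
      · left
        refine ⟨lxc_Loc hx ?_, k, (lxc_pow (min_le_left ec ey) u).trans hk⟩
        have : 0 < (2 : ℝ) ^ (-(P.s * u)) := by positivity
        linarith
      · right
        exact ⟨hx, k, (lxc_pow (min_le_right ec ey) u).trans hk⟩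
    · refine (measure_union_le _ _).trans ?_
      have h1 : ENNReal.ofReal (Cc * (2 : ℝ) ^ ((P.p - e'c) * u)) ≤
          ENNReal.ofReal Cc * ENNReal.ofReal ((2 : ℝ) ^ ((P.p - e') * u)) := by
        rw [← ENNReal.ofReal_mul hCc.le]
        exact ENNReal.ofReal_le_ofReal
          (mul_le_mul_of_nonneg_left (lxc_pow2 (min_le_left _ _) u) hCc.le)
      have h2 : ENNReal.ofReal (Cy * (2 : ℝ) ^ ((P.p - e'y) * u)) ≤
          ENNReal.ofReal Cy * ENNReal.ofReal ((2 : ℝ) ^ ((P.p - e') * u)) := by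
        rw [← ENNReal.ofReal_mul hCy.le]
        exact ENNReal.ofReal_le_ofReal
          (mul_le_mul_of_nonneg_left (lxc_pow2 (min_le_right _ _) u) hCy.le)
      calc _ ≤ ENNReal.ofReal Cc * ENNReal.ofReal ((2 : ℝ) ^ ((P.p - e') * u)) * volume E +
            ENNReal.ofReal Cy * ENNReal.ofReal ((2 : ℝ) ^ ((P.p - e') * u)) * volume E :=
            add_le_add (H1.trans (by gcongr)) (H2.trans (by gcongr))
        _ = _ := by
            rw [hC', ENNReal.ofReal_add hCc.le hCy.le]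
            ring
  calc _ ≤ ∑' l : ℤ, ENNReal.ofReal ((2 : ℝ) ^ (P.p * l)) * ∑' u : ℕ,
        ENNReal.ofReal C' * (ENNReal.ofReal ((2 : ℝ) ^ ((P.p - e') * u)) *
          volume (Gf f (l + (u : ℤ)))) := by
        refine ENNReal.tsum_le_tsum fun l => ?_
        refine mul_le_mul_right ?_ _
        refine (measure_mono (t := ⋃ u : ℕ, {x | max (max uc uy) 1 ≤ u ∧
          (Loc (Cf₀ + 10) ((2 : ℝ) ^ (-(P.s * u)) / 4) ((Gf f (l + (u : ℤ))).indicator 1) x ∧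
          ∃ k : ℤ, ((2 : ℝ) ^ (-(min ec ey * u)) ≤ trS (2 ^ u) ((2 : ℝ) ^ (-(P.g / 8 * u)))
            (fun j => Yc c φ τ u k ((Gf f (l + (u : ℤ))).indicator 1) x j) ∨
          (2 : ℝ) ^ (-(min ec ey * u)) ≤ ∑ j ∈ Finset.range (2 ^ u), Yc c φ τ u k
            ((Gf f (l + (u : ℤ)) \ Fo P u k (q0 P u) (Gf f (l + (u : ℤ)))).indicator 1) x j))})
            ?_).trans ?_
        · rintro x ⟨u, hu, hx⟩
          exact mem_iUnion.2 ⟨u, hu, hx⟩
        · refine (measure_iUnion_le _).trans (ENNReal.tsum_le_tsum fun u => ?_)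
          by_cases hu : max (max uc uy) 1 ≤ u
          · refine (measure_mono ?_).trans (key l u hu)
            rintro x ⟨_, hx⟩
            exact hx
          · have : {x : Pl | max (max uc uy) 1 ≤ u ∧
              (Loc (Cf₀ + 10) ((2 : ℝ) ^ (-(P.s * u)) / 4) ((Gf f (l + (u : ℤ))).indicator 1) x ∧
              ∃ k : ℤ, ((2 : ℝ) ^ (-(min ec ey * u)) ≤ trS (2 ^ u) ((2 : ℝ) ^ (-(P.g / 8 * u)))
                (fun j => Yc c φ τ u k ((Gf f (l + (u : ℤ))).indicator 1) x j) ∨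
              (2 : ℝ) ^ (-(min ec ey * u)) ≤ ∑ j ∈ Finset.range (2 ^ u), Yc c φ τ u k
                ((Gf f (l + (u : ℤ)) \ Fo P u k (q0 P u) (Gf f (l + (u : ℤ)))).indicator 1) x j))}
                = ∅ := by
              ext x
              simp only [mem_ofPred_eq, mem_empty_iff_false, iff_false]
              exact fun h => hu h.1
            rw [this, measure_empty]
            exact zero_le
    _ = ENNReal.ofReal C' * ∑' l : ℤ, ENNReal.ofReal ((2 : ℝ) ^ (P.p * l)) * ∑' u : ℕ,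
        ENNReal.ofReal ((2 : ℝ) ^ ((P.p - e') * u)) * volume (Gf f (l + (u : ℤ))) := by
        rw [← ENNReal.tsum_mul_left]
        refine tsum_congr fun l => ?_
        rw [ENNReal.tsum_mul_left]
        ring
    _ ≤ ENNReal.ofReal C' * (ENNReal.ofReal (1 / (1 - (2 : ℝ) ^ (-e'))) *
          ∫⁻ x, ENNReal.ofReal (f x) ^ P.p) := by
        gcongr
        exact (HL4 f hf.1 hf0).2.2.2 e' he'0
    _ ≤ _ := by
        rw [← mul_assoc, ← ENNReal.ofReal_mul hC'0.le]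
        gcongr
        exact le_max_right _ _

end Pool.Agent.Helper81.EPL
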